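import Pool.Agent.Helper18.CPC.St

/-! CPC, module JX: an injective choice of a letter for each infinite word, different from infinitely many letters of the word. -/

set_option autoImplicit false

open TopologicalSpace Topology Filter Set

namespace Pool.Agent.Helper6.CPC

open Pool.Agent.Helper18.CPC

universe u

/-- an injection of the words into `ℕ → Y` -/
private theorem exists_inj (Y : Type u) [Infinite Y] :
    ∃ j : (ℕ → (ℕ → Y) × ℕ) → (ℕ → Y), Function.Injective j := by
  let E : ℕ ≃ (ℕ × ℕ) ⊕ ℕ := (Denumerable.eqv ((ℕ × ℕ) ⊕ ℕ)).symm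
  let e : ℕ ↪ Y := Infinite.natEmbedding Y
  refine ⟨fun w n => Sum.elim (fun ab : ℕ × ℕ => (w ab.1).1 ab.2) (fun m : ℕ => e (w m).2) (E n), ?_⟩
  intro w v h
  have h1 : ∀ x : (ℕ × ℕ) ⊕ ℕ, Sum.elim (fun ab : ℕ × ℕ => (w ab.1).1 ab.2) (fun m : ℕ => e (w m).2) x =
      Sum.elim (fun ab : ℕ × ℕ => (v ab.1).1 ab.2) (fun m : ℕ => e (v m).2) x := by
    intro x
    have := congrFun h (E.symm x)
    simpa only [Equiv.apply_symm_apply] using this
  funext a
  refine Prod.ext (funext fun b => ?_) ?_
  · exact h1 (Sum.inl (a, b))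
  · exact e.injective (h1 (Sum.inr a))

theorem m_JX : hJX.{u} := by
  intro Y _
  classical
  obtain ⟨j0, hj0⟩ := exists_inj Y
  refine ⟨fun w => (j0 w, if ∃ᶠ n in atTop, w n ≠ (j0 w, 0) then 0 else 1), ?_, ?_⟩
  · intro w v h
    exact hj0 (congrArg Prod.fst h)
  · intro w
    by_cases h : ∃ᶠ n in atTop, w n ≠ (j0 w, 0)
    · simp only [if_pos h]
      exact h
    · simp only [if_neg h]
      rw [Filter.not_frequently] at h
      refine Filter.Eventually.frequently ?_
      filter_upwards [h] with n hn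
      rw [not_not.1 hn]
      simp

end Pool.Agent.Helper6.CPC
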